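import Pool.Agent.Lib_helper56.GLQ.F.A4

/-!
# MP_ef641d_nt: the number of algebraic cusp forms on `GL_n` of Artin type

The cuspidal representations `π` of `GL_n` over `ℚ` of Artin type are algebraic and not regular.
If the Hecke eigenvalues of such `π` are algebraic integers and their conjugates are again
automorphic, then, without any use of Galois representations, the number of such `π` of conductor
`N` and central character `χ`, and the degree of the field of rationality of `π` over the field of
`χ`, are `≪ N^(n - 1 - 1 / (60 n²))`, for every `n ≥ 2` (`n = m + 1` below).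
-/

set_option autoImplicit false

namespace Pool.Agent.Lib_helper2.Superseded.AlgebraicFormsGLn

open Pool.Agent.GLQ

theorem result (m : ℕ) (hm : 1 ≤ m) (k : (Fin (m + 1) → Fin (m + 1) → ℝ) → ℂ)
    (hk1 : ∃ C, LipschitzWith C k) (hk2 : HasCompactSupport k)
    (hk3 : tsupport k ⊆ {A | 0 < (Matrix.of A).det}) : ∃ C : ℝ, ∀ (N : ℕ), N ≠ 0 →
      ∀ (ι : AlgebraicClosure ℚ →+* ℂ) (F : Finset (ℕ → Fin 3 → AlgebraicClosure ℚ)),
      GaloisStable m N k ι F →
      ∀ (χ : DirichletCharacter ℂ N) (G : Finset (ℕ → Fin 3 → AlgebraicClosure ℚ)), G ⊆ F →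
      (∀ b ∈ G, Attached m N k χ ι b) →
      (G.card : ℝ) ≤ C * (N : ℝ) ^ ((m : ℝ) - 1 / (60 * ((m : ℝ) + 1) ^ 2)) :=
  main m hm k hk1 hk2 hk3

end Pool.Agent.Lib_helper2.Superseded.AlgebraicFormsGLn
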