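import Pool.Agent.Lib_helper67.GKC.Q

/-!
The Gelfand-Kirillov dimension of cocommutative Hopf algebras over an algebraically closed field of
any characteristic, and of all Hopf algebras generated by group-likes and the irreducible component
of `1`.

`Pool.Agent.GKC.component k H` is the irreducible component of `1` (the union of the iterated wedges
of the line `k 1`), `Pool.Agent.GK.GKdim k H` is the supremum over the finite-dimensional subspaces
`V` containing `1` of `limsup log (dim V^n) / log n`, word for word as in the frozen statement, and
`Pool.Agent.GKC.GKsub k A` is the same supremum over the `V` inside of `A`.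

Outline of the proof.  (1) A finite-dimensional subcoalgebra `D` of the component with `1 ∈ D` has a
flag (`flagged_of_U`), and its powers have growth of exact order `n^r`, or faster than every power
of `n` (`Flagged.growth`, from the theorem on connected Hopf algebras).  (2) The sum of the `U g`,
`g` group-like, is direct (`direct`), so `dim (D^n S^n) = dim D^n * |S^n|` (`finrank_mul_pow`).
(3) If some orbit of a flag element modulo a stable flag is infinite-dimensional, the conjugates are
independent and primitive modulo lower terms for a weight filtration, so the growth is at least
`exp (c sqrt n)` (`indep_growth`, `step_stable`).  Otherwise every flag lies in a stable one, and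
`(D S)^n = D^n S^n` (`asm_L_mul`).  (4) For a cocommutative `H` the operators `x ↦ x₁ f(x₂)`
commute; their joint generalized eigenspaces on finite-dimensional subcoalgebras are of the form
`X g`, `X` in the component (`spl_of_cocomm`).
-/

set_option autoImplicit false

universe u v

namespace Pool.Agent.Results.MP_49c8ed_al.CocommutativeHopf

/-- Let `H` be a cocommutative Hopf algebra over an algebraically closed field `k`, or a Hopf algebra
over any field `k` which is generated as an algebra by its group-likes and the irreducible component
of `1`. Then `GKdim H = ∞`, or the conjugation by finitely many group-likes is locally finite on the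
component, the dimension of the component is a natural number `m`, and
`GKdim H = GKdim k[G(H)] + m`. -/
theorem result (k : Type u) [Field k] (H : Type v) [Ring H] [HopfAlgebra k H]
    (h : (IsAlgClosed k ∧ Coalgebra.IsCocomm k H) ∨
      Algebra.adjoin k ({g : H | IsGroupLikeElem k g} ∪
        (Pool.Agent.GKC.component k H : Set H)) = ⊤) :
    Pool.Agent.GK.GKdim k H = ⊤ ∨
      ((∀ x ∈ Pool.Agent.GKC.component k H, ∀ S : Finset (GroupLike k H),
        ∃ E : Submodule k H, E.FG ∧ x ∈ E ∧ E ≤ Pool.Agent.GKC.component k H ∧
          ∀ s ∈ S, ∀ y ∈ E, s.val * y * (s⁻¹).val ∈ E) ∧
      ∃ m : ℕ, Pool.Agent.GKC.GKsub k (Pool.Agent.GKC.component k H) = m ∧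
        Pool.Agent.GK.GKdim k H =
          Pool.Agent.GK.GKdim k (MonoidAlgebra k (GroupLike k H)) + m) := by
  rcases h with ⟨h1, h2⟩ | h
  · exact Pool.Agent.GKC.final_pr k H (Pool.Agent.GKC.spl_of_cocomm k H)
  · exact Pool.Agent.GKC.final_pr k H (Pool.Agent.GKC.spl_of_adjoin k H h)

end Pool.Agent.Results.MP_49c8ed_al.CocommutativeHopf
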