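import Pool.Agent.Lib_helper2.GKU.U10

/-!
The Gelfand-Kirillov dimension of a Hopf algebra, over any field, whose coradical `A` is a commutative
Hopf subalgebra and acts locally unipotently (the commutation with every element of `A` is locally
nilpotent) is a natural number or infinite.

`Pool.Agent.GK.coradical k H` is the sum of all simple subcoalgebras, `Pool.Agent.GK.GKdim k H` is the
supremum over the finite-dimensional subspaces `V` containing `1` of `limsup log (dim V^n) / log n`,
word for word as in the frozen statement, `Pool.Agent.GKC.GKsub k A` is the same supremum over the `V`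
inside `A`, and `Pool.Agent.GKP.IsHopfSubalgebra k A` says that `A` contains `1` and is closed under
multiplication, comultiplication and the antipode.

Outline of the proof (Lib_helper2/GKU and GKF).  Let `C` be a finite-dimensional subcoalgebra with `1`,
`E` its intersection with `A`, stable under the antipode, `K` the algebra generated by `E`.
(1) There is a chain `C_0 = E <= C_1 <= ... <= C_r = C` with `Delta(C_i)` in
`C_i (x) C_0 + C_0 (x) C_i + C_(i-1) (x) C_(i-1)`; let `X_i` be the closure of `C_i` under commutators
with `E` and `Y_i^j` the span of the `j`-fold commutators of `E` with the augmented `X_i`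
(`exists_lev`).  (2) Letters spanning `Y_i^j` get the weight `(n+1) 3^i - j`, `K` has weight `0`.  For
`E_s` = (words of weight `<= s`) `K` and `N_s = E_(s-1) + E_s K^+` all hypotheses of the quotient
construction of `LocalCoradical` hold (`isFW_mod`): the quotient of the free algebra is a bialgebra `B`
generated by primitive elements.  (3) `E_s` is a free module over `K` modulo `E_(s-1)`, of rank the
dimension of the piece of weight `s` of `B` (`level_fam`, `level_rank`; here and in (4) the coinvariant
families, the nondistortion lemma and the real analysis are those of helper54 and coauthors for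
`CoradicalGap`).  (4) So `dim C^n <= R(W n) dim E^n` and `R(s) dim D <= dim C^(c(s+1)) D` for `D` in `A`,
`R(s)` the dimension of the weight `<= s` part of `B` (`count_bounds`), which grows like `n^r` or at
least like `exp (c sqrt n)`.  (5) Commutative algebras have a basis of standard monomials, so the
growth of their finite-dimensional subspaces is of exact order `n^r` (`comm_val`).
-/

set_option autoImplicit false

universe u v

namespace Pool.Agent.Results.MP_49c8ed_al.CommutativeCoradical

open Pool.Agent.GK Pool.Agent.GKC Pool.Agent.GKP

/-- Let `A` be the coradical of the Hopf algebra `H`. Suppose that `A` is a Hopf subalgebra, that `A` is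
commutative and that for all `a` in `A` and `x` in `H` the iterated commutators `[a, [a, ... [a, x]]]`
vanish eventually. Then the Gelfand-Kirillov dimension of `H` is infinite, or it is `d + m` with
natural numbers `d`, `m`, where `d` is the Gelfand-Kirillov dimension of `A`. -/
theorem result (k : Type u) [Field k] (H : Type v) [Ring H] [HopfAlgebra k H]
    (hA : IsHopfSubalgebra k (coradical k H))
    (hcomm : ∀ a ∈ coradical k H, ∀ b ∈ coradical k H, a * b = b * a)
    (hnil : ∀ a ∈ coradical k H, ∀ x : H, ∃ n : ℕ, (fun y => a * y - y * a)^[n] x = 0) :
    GKdim k H = ⊤ ∨ ∃ d m : ℕ, GKsub k (coradical k H) = (d : ENNReal) ∧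
      GKdim k H = ((d + m : ℕ) : ENNReal) := by
  rcases Pool.Agent.GKU.rel_main k hA hcomm hnil with h | ⟨m, h⟩
  · exact Or.inl h
  · rcases Pool.Agent.GKU.GKsub_comm k hA.one_mem hcomm with h' | ⟨d, h'⟩
    · left
      rw [h, h', top_add]
    · right
      exact ⟨d, m, h', by rw [h, h']; push_cast; rfl⟩

/-- Example (not part of `result`): pointed Hopf algebras (the coradical is spanned by group-like
elements) whose group-likes commute and act locally unipotently by conjugation. -/
theorem pointed_example (k : Type u) [Field k] (H : Type v) [Ring H] [HopfAlgebra k H]
    (hpt : coradical k H ≤ Submodule.span k {g : H | IsGroupLikeElem k g})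
    (hab : ∀ g h : H, IsGroupLikeElem k g → IsGroupLikeElem k h → g * h = h * g)
    (huni : ∀ g : H, IsGroupLikeElem k g → ∀ x : H, ∃ n : ℕ,
      (fun y => g * y * HopfAlgebra.antipode k g - y)^[n] x = 0) :
    IsHopfSubalgebra k (coradical k H) ∧ (∀ a ∈ coradical k H, ∀ b ∈ coradical k H, a * b = b * a) ∧
      ∀ a ∈ coradical k H, ∀ x : H, ∃ n : ℕ, (fun y => a * y - y * a)^[n] x = 0 :=
  Pool.Agent.GKU.pointed_hyp k hpt hab huni

end Pool.Agent.Results.MP_49c8ed_al.CommutativeCoradical
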