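import Pool.Agent.Lib_helper2.ICO5.Gl3

/-!
# MP_ef641d_nt: automorphic representations of `GL_3` with rational integral Satake polynomials

A unitary cuspidal `π` on `GL_3` over `ℚ` whose Satake polynomials have rational integral coefficients
is self-dual, so by a theorem of Ramakrishnan it is a quadratic twist of the adjoint lift of a `π'` on
`GL_2`, and the numbers `v p = α / β + β / α` of `π'` are rational integers. If `π'` is not dihedral,
tetrahedral or octahedral, then a twist of its fourth symmetric power is a cuspidal form on `GL_5` with
the Satake polynomials `P5 (v p)` (Kim, Shahidi). The theorem below says that there is no such form, so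
`π'` is of solvable polyhedral type, and `π` corresponds to a representation of the Galois group
(Langlands, Tunnell): the conclusion of Q1 holds for all these `π`, with no assumption at infinity or on
conjugates. The same holds with a number field `K` in place of `ℚ` if `√5 ∉ K` and all conjugates are
automorphic.

The proof: the trace `v ^ 2 + v - 1` is odd for integral `v`, so it is never zero; but for all closed
families of cusp forms on `GL_n`, `n ≥ 2`, with integral Satake polynomials the trace vanishes at
infinitely many primes (the quotient of the product of the Rankin-Selberg `L`-functions of the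
conjugates and a power of the zeta function would otherwise be a Dirichlet series with nonnegative
coefficients which is holomorphic near the real axis to the right of `0`, and diverges at `1 / 6`).
-/

set_option autoImplicit false

namespace Pool.Agent.Results.MP_ef641d_nt.IntegralGL3

open Polynomial NumberField Pool.Agent.ICO5

theorem result (K : Type) [Field K] [NumberField K] (N : ℕ) (hN : 0 < N) (v : ℕ → 𝓞 K)
    (h : ∀ t : K →+* ℂ, ∃ (χ : DirichletCharacter ℂ N) (φ : Matrix (Fin 5) (Fin 5) ℝ → ℂ),
      CuspEigenform 5 N χ φ fun p => P5 (t (v p))) :
    (∀ s : ℝ, s < 1 / 6 → ¬ Summable fun p : {p : ℕ // p.Prime ∧ ¬ p ∣ N ∧ v p ^ 2 + v p = 1} =>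
      ((p : ℕ) : ℝ) ^ (-s)) ∧ ∃ w : K, w ^ 2 = 5 :=
  gl3_main K N hN v h

end Pool.Agent.Results.MP_ef641d_nt.IntegralGL3
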