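import Pool.Agent.Lib_helper2.ICO5.Bridge

/-!
# MP_ef641d_nt: residual representations of automorphic forms on `GL_2` of icosahedral type

`π` is a cuspidal eigenform on `GL_2` which is not regular, with Satake polynomials `X² - a(p) X + χ(p)`
(`p ∤ N`): `χ` is a Dirichlet character modulo `N`, and `a(p)`, `χ(p)` are integers of a number field `K`.
Put `v(p) = a(p)² / χ(p) - 2`; this is `z + z⁻¹`, where `z` is the quotient of the two roots. The
assumption on `π`: every `v(p)` is a rational integer or a root of `X² + X - 1`, and for one embedding
`t` of `K` there is a cuspidal Hecke eigenform on `GL_5` with the Satake parameters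
`1, z, z⁻¹, z², z⁻²` (a twist of the symmetric fourth power of `π`, which is automorphic by a theorem of
Kim, and cuspidal if `π` is not of solvable polyhedral type). Nothing is assumed about the other
embeddings of `K`. By IcosahedralFamilies, this assumption holds if the eigenvalues `v(p)` are integers
of a number field, the conjugates of `π` and their lifts are automorphic and `π` is not of solvable
polyhedral type (`Pool.Agent.ICO.golden_of_family`).

Let `ℓ > 5` be a prime, `k` a field of characteristic `ℓ` with a homomorphism `j` from the integers of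
`K`, and `S` a set of primes of upper Dirichlet density less than `1 / 30`, for instance `S = {ℓ}`.

(A) There are no Dirichlet characters `x`, `y` (of any moduli) into `k` with `j (a p) = x p + y p`
and `j (χ p) = x p * y p` for all `p ∤ N` outside `S`.

(B) Let `r` be any representation of the Galois group of `ℚ` of degree two over `k` with open kernel
which is attached to the polynomials `X² - j (a p) X + j (χ p)` at all primes `p ∤ N` outside `S`.
Nothing is assumed about its image. Then the image is not solvable, and for every embedding `g : K → ℂ`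
there is a complex representation `ρ` of the Galois group with open kernel and projective image the
alternating group of degree five (the same projective image as that of `r`) that is attached to
`X² - g (a p) X + g (χ p)` at all `p ∤ N`, `p ∉ S` outside the set `Big N v` of the `p` at which
`v(p) = b` is an integer, `|b| ≥ 3`. For these `p`, `ℓ < (|b| + 1)²`; the sum of `p^(-s)` over `Big N v`
is at most three times that over `S` plus a constant; and it converges for some `s < 1` if the sum over
`S` does.

So `π` with one solvable reduction modulo one prime above one `ℓ > 5` is of solvable polyhedral type, and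
its representation exists by the theorem of Langlands and Tunnell; in the remaining case one residual
representation gives the complex, hence all `ℓ'`-adic representations.

## The proof

(1) The image of `r`. The mean square of the fourth symmetric power of the traces is at most one,
because the form on `GL_5` is cuspidal (Rankin-Selberg); the finite group `r(G)` modulo scalars is
compared with the values `v(p)` by Chebotarev's density theorem. This excludes all groups but `A_5`.
(2) `ρ` is the lift of `r` to characteristic zero (the order is prime to `ℓ` modulo scalars). For `p`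
outside `S` the value `v(p)` and the element of `A_5` agree modulo `ℓ`; if they do not agree in
characteristic zero, then `p` is in `Big N v`, and the square of the eigenvalue on `GL_5` exceeds the
square of the character of degree five of `A_5` (values `25, 0, 1`, mean one) by at least `24`. A
comparison of the means bounds the density of these `p`.
(3) Power saving. The Euler product of the Rankin-Selberg square of the form on `GL_5` is divided by
the product of the Dedekind zeta functions which belongs to the class function; the quotient is a
Dirichlet series with nonnegative coefficients up to the factors in `S`, so Landau's lemma applies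
(`Lib_helper54/OZ`), to the right of the real zeros of these zeta functions.
(4) Two Dirichlet characters into `k` give a diagonal representation (`Lib_helper38/NE`).
-/

set_option autoImplicit false

namespace Pool.Agent.Results.MP_ef641d_nt.OneIcosahedral

open Polynomial NumberField Filter Topology Pool.Agent.ICO5

theorem result (K : Type) [Field K] [NumberField K] (N : ℕ) (hN : 2 ≤ N)
    (χ : DirichletCharacter (𝓞 K) N) (a v : ℕ → 𝓞 K)
    (hv : ∀ p : ℕ, p.Prime → ¬ p ∣ N →
      a p ^ 2 = (v p + 2) * χ p ∧ ((∃ b : ℤ, v p = b) ∨ v p ^ 2 + v p = 1))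
    (t : K →+* ℂ) (ψ : DirichletCharacter ℂ N) (φ : Matrix (Fin 5) (Fin 5) ℝ → ℂ)
    (hφ : CuspEigenform 5 N ψ φ fun p => P5 (t (v p)))
    (ℓ : ℕ) (hℓ : ℓ.Prime) (h5 : 5 < ℓ) (k : Type) [Field k] [CharP k ℓ] (j : 𝓞 K →+* k)
    (S : Set ℕ) (d : ℝ) (hd : d < 1 / 30)
    (hS : ∀ᶠ s : ℝ in 𝓝[>] 1, primeSum S s ≤ d * Real.log (1 / (s - 1))) :
    (∀ (M₁ M₂ : ℕ) (x : DirichletCharacter k M₁) (y : DirichletCharacter k M₂),
      0 < M₁ → 0 < M₂ → ∃ p : ℕ, p.Prime ∧ ¬ p ∣ N ∧ p ∉ S ∧
        ¬ (j (a p) = x p + y p ∧ j (χ p) = x p * y p)) ∧
    ∀ r : (AlgebraicClosure ℚ ≃ₐ[ℚ] AlgebraicClosure ℚ) →* Matrix (Fin 2) (Fin 2) k,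
      IsOpen {σ : AlgebraicClosure ℚ ≃ₐ[ℚ] AlgebraicClosure ℚ | r σ = 1} →
      (∀ p : ℕ, p.Prime → ¬ p ∣ N → p ∉ S →
        AttachedAt r p (X ^ 2 - C (j (a p)) * X + C (j (χ p)))) →
      ¬ SolvableImage r ∧
      (∀ p : ℕ, p.Prime → p ∈ Big N v → p ∉ S → ∀ b : ℤ, v p = b → (ℓ : ℤ) < (|b| + 1) ^ 2) ∧
      (∃ B : ℝ, ∀ s : ℝ, 1 < s → s ≤ 2 → primeSum (Big N v) s ≤ 3 * primeSum S s + B) ∧
      (Thin S → Thin (Big N v)) ∧
      ∀ g : K →+* ℂ,
        ∃ (ρ : (AlgebraicClosure ℚ ≃ₐ[ℚ] AlgebraicClosure ℚ) →* Matrix (Fin 2) (Fin 2) ℂ)
          (h : (AlgebraicClosure ℚ ≃ₐ[ℚ] AlgebraicClosure ℚ) →* Equiv.Perm (Fin 5)),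
          IsOpen {σ : AlgebraicClosure ℚ ≃ₐ[ℚ] AlgebraicClosure ℚ | ρ σ = 1} ∧
          Icosahedral ρ h ∧ Icosahedral r h ∧
          ∀ p : ℕ, p.Prime → ¬ p ∣ N → p ∉ S → p ∉ Big N v →
            AttachedAt ρ p (X ^ 2 - C (g (a p)) * X + C (g (χ p))) :=
  main5 K N hN χ a v hv t ψ φ hφ ℓ hℓ h5 k j S d hd hS

end Pool.Agent.Results.MP_ef641d_nt.OneIcosahedral
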