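import Pool.Agent.Lib_helper54.RS.Joined

/-!
# MP_ef641d_nt: the theorem of Thompson and Siegel for automorphic forms on `GL_n`

Let `π^τ`, `τ : K → ℂ`, be the conjugates of an automorphic representation of Artin type of `GL_n`
over `ℚ`, given by bounded eigenforms of level `N`, with Hecke traces `a p ∈ O_K`.  Then on a set
of primes of lower density at least `2/5` all `τ (a p)` are sums of `n` roots of unity, as they are
at all primes if there is a Galois representation of finite image attached to `π`.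
The analytic input, the Rankin-Selberg bound for `GL_n`, is proved in `Lib_helper54/RS`.
-/

set_option autoImplicit false

namespace Pool.Agent.Lib_helper2.Superseded.ThompsonSiegel

open Pool.Agent.RS.Main

theorem result {n N : ℕ} (hn : 2 ≤ n) (hN : N ≠ 0) (K : Type) [Field K] [NumberField K]
    (c : K →+* K) (hc : ∀ (τ : K →+* ℂ) (x : K), τ (c x) = (starRingEnd ℂ) (τ x))
    (a : ℕ → K) (ha : ∀ p : ℕ, p.Prime → ¬ p ∣ N → IsIntegral ℤ (a p))
    (χ : (K →+* ℂ) → DirichletCharacter ℂ N)
    (φ : (K →+* ℂ) → Matrix (Fin n) (Fin n) ℝ → ℂ)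
    (hφ : ∀ τ : K →+* ℂ, BoundedEigenform n N (χ τ) (φ τ) (fun p => τ (a p))) :
    DirichletGE {p | ¬ p ∣ N ∧ ∀ τ : K →+* ℂ, IsSumRU n (τ (a p))} (2 / 5) :=
  (Pool.Agent.RS.joined hn hN K c hc a ha χ φ hφ).2.2.2.1

end Pool.Agent.Lib_helper2.Superseded.ThompsonSiegel
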